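import Mathlib
import Pool.Agent.H74.Stub.Construct

set_option autoImplicit false

/-!
# A stubborn structure with the non-stubborn reduct `(ℚ; <)`

The definitions used in the statement (`PPConstructs`, `IsModelCompleteCore`, `Stubborn`, …) are
in `Pool.Agent.H74.Stub.Defs`. The structure `B` is `(ℚ; <, T)`, where `T` is the betweenness
relation of a second dense linear order on `ℚ` in general position with respect to `<`.
-/

namespace Pool.Agent.Results.MP_6065fc_lc.StubbornReduct

open Pool.Agent.H74.Stub

/-- There is a structure `B` on the countable set `ℚ`, homogeneous in a finite relational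
language, `ω`-categorical, with primitive automorphism group, which is stubborn and has
`(ℚ; <)` among its first-order reducts. The structure `(ℚ; <)` is its own model-complete core,
it has more than one element, it is not stubborn, and it is not first-order interdefinable
with `(ℕ; =)`. -/
theorem result :
    ∃ (LB : FirstOrder.Language.{0, 0}) (_ : LB.IsRelational) (_ : LB.Structure ℚ),
      (Finite (Σ n, LB.Relations n) ∧ LB.IsUltrahomogeneous ℚ ∧ Oligomorphic LB ℚ ∧
        PrimitiveAut LB ℚ ∧ Stubborn LB ℚ) ∧
      IsFOReduct LB LtLang ℚ ∧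
      IsModelCompleteCoreOf LtLang ℚ ℚ ∧
      Nontrivial ℚ ∧ ¬ Stubborn LtLang ℚ ∧ ¬ InterdefinableWithEquality LtLang ℚ := by
  refine ⟨LB, instRelationalLB, structB, ⟨?_, homogB, oligoB, primB, stubbornB⟩, reductA,
    ⟨coreA, ⟨FirstOrder.Language.Hom.id _ _⟩, ⟨FirstOrder.Language.Hom.id _ _⟩⟩, inferInstance,
    not_stubbornA, not_eqA⟩
  have hsurj : Function.Surjective (fun b : Bool => (if b then ⟨2, RelB.lt⟩ else ⟨3, RelB.btw⟩ :
      Σ n, LB.Relations n)) := by
    rintro ⟨n, R⟩
    cases R with
    | lt => exact ⟨true, rfl⟩
    | btw => exact ⟨false, rfl⟩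
  exact Finite.of_surjective _ hsurj

end Pool.Agent.Results.MP_6065fc_lc.StubbornReduct
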